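import Pool.Agent.X263.At.Op

/-!
# Kernels of matrices with monomial entries off one row and one column

Let `G` be a group and `A` a matrix over `K[G]`, `K` a subfield of the complex numbers, whose
entries, off one row and one column, have the form `r g_i h_j`. There are nonzero elements `α`, `β`
of `K[G]` such that the von Neumann dimension of the kernel of `A` is an integer if `α` and `β` are
regular. So this dimension is an integer if all nonzero elements of `K[G]` are regular.
-/

set_option autoImplicit false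

universe u

noncomputable section

namespace Pool.Agent.Results.MP_95030e_al.BorderedKernels

/-- The kernel of right multiplication by the matrix `A` over the complex group ring on row vectors
of length `m` over `l2(G)`: all square-summable `x` with `x A = 0`. -/
def kernel {G : Type u} [Group G] {m l : ℕ} (A : Matrix (Fin m) (Fin l) (G →₀ ℂ)) :
    Set (lp (fun _ : Fin m × G => ℂ) 2) :=
  {x | ∀ (j : Fin l) (g : G),
    ∑ k : Fin m, ∑ h ∈ (A k j).support, x (k, g * h⁻¹) * A k j h = 0}

open Classical in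
/-- The von Neumann dimension of that kernel: the sum over `i` of one minus the square of the
distance from the basis vector at `(i, 1)` to the kernel, that is, the sum of the squared lengths
of the projections of these vectors to the kernel. -/
def kerDim {G : Type u} [Group G] {m l : ℕ} (A : Matrix (Fin m) (Fin l) (G →₀ ℂ)) : ℝ :=
  ∑ i : Fin m, (1 - Metric.infDist
    (lp.single (E := fun _ : Fin m × G => ℂ) 2 (i, (1 : G)) (1 : ℂ)) (kernel A) ^ 2)

/-- `α * f` is nonzero for every nonzero square-summable `f`, where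
`(α * f)(g) = ∑ α(k) f(k⁻¹ g)`. -/
def Regular {G : Type u} [Group G] (α : G →₀ ℂ) : Prop :=
  ∀ f : G → ℂ, Memℓp f 2 → f ≠ 0 → ∃ g : G, ∑ k ∈ α.support, α k * f (k⁻¹ * g) ≠ 0

theorem kerDim_eq {G : Type u} [Group G] {m l : ℕ} (A : Matrix (Fin m) (Fin l) (G →₀ ℂ)) :
    kerDim A = W649.ZL.kerDimM A := by
  unfold kerDim W649.ZL.kerDimM
  congr!

theorem result (G : Type u) [Group G] (K : Subfield ℂ) {m l : ℕ}
    (A : Matrix (Fin m) (Fin l) (G →₀ ℂ)) (hA : ∀ i j t, A i j t ∈ K) (i₀ : Fin m) (j₀ : Fin l)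
    (g : Fin m → G) (h : Fin l → G)
    (hc : ∀ i j, i ≠ i₀ → j ≠ j₀ → ∃ r : ℂ, A i j = Finsupp.single (g i * h j) r) :
    (∃ α β : G →₀ ℂ, α ≠ 0 ∧ β ≠ 0 ∧ (∀ t, α t ∈ K) ∧ (∀ t, β t ∈ K) ∧
      (Regular α → Regular β → ∃ n : ℕ, kerDim A = n)) ∧
    ((∀ α : G →₀ ℂ, α ≠ 0 → (∀ t, α t ∈ K) → Regular α) → ∃ n : ℕ, kerDim A = n) := by
  obtain ⟨α, β, h1, h2, h3, h4, h5⟩ := Pool.Agent.X263.At.main K A hA i₀ j₀ g h hc
  rw [kerDim_eq]
  exact ⟨⟨α, β, h1, h2, h3, h4, fun h6 h7 =>
      h5 ((W649.ZL.regular_iff α).1 h6) ((W649.ZL.regular_iff β).1 h7)⟩,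
    fun h6 => h5 ((W649.ZL.regular_iff α).1 (h6 α h1 h3)) ((W649.ZL.regular_iff β).1 (h6 β h2 h4))⟩

end Pool.Agent.Results.MP_95030e_al.BorderedKernels
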