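import Pool.Agent.X190.PN.Main

set_option autoImplicit false

universe u v

noncomputable section

namespace Pool.Agent.Results.MP_95030e_al.Specialisations

/-- The kernel of right multiplication by the matrix `A` over the complex group ring on row vectors
of length `m` over `l2(G)`: all square-summable `x` with `x A = 0`. -/
def kernel {G : Type u} [Group G] {m l : ℕ} (A : Matrix (Fin m) (Fin l) (G →₀ ℂ)) :
    Set (lp (fun _ : Fin m × G => ℂ) 2) :=
  {x | ∀ (j : Fin l) (g : G),
    ∑ k : Fin m, ∑ h ∈ (A k j).support, x (k, g * h⁻¹) * A k j h = 0}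

open Classical in
/-- The von Neumann dimension of that kernel: the sum over `i` of one minus the square of the
distance from the basis vector at `(i, 1)` to the kernel, that is, the sum of the squared lengths
of the projections of these vectors to the kernel. -/
def kerDim {G : Type u} [Group G] {m l : ℕ} (A : Matrix (Fin m) (Fin l) (G →₀ ℂ)) : ℝ :=
  ∑ i : Fin m, (1 - Metric.infDist
    (lp.single (E := fun _ : Fin m × G => ℂ) 2 (i, (1 : G)) (1 : ℂ)) (kernel A) ^ 2)

/-- The value `A 0 + z A 1 + ... + z ^ d A d` at the complex number `z` of the polynomial with the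
coefficient matrices `A 0, ..., A d` over the group ring of `G`. -/
def value {G : Type u} {m l : ℕ} (d : ℕ) (A : ℕ → Matrix (Fin m) (Fin l) (G →₀ ℂ)) (z : ℂ) :
    Matrix (Fin m) (Fin l) (G →₀ ℂ) :=
  fun i j => ∑ k ∈ Finset.range (d + 1), z ^ k • A k i j

/-- The matrix `A 0 + t A 1 + ... + t ^ d A d` over the group ring of `G × ℤ`, where `t` is the
generator of the second factor. -/
def polynomial {G : Type u} {m l : ℕ} (d : ℕ) (A : ℕ → Matrix (Fin m) (Fin l) (G →₀ ℂ)) :
    Matrix (Fin m) (Fin l) (G × Multiplicative ℤ →₀ ℂ) :=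
  fun i j => ∑ k ∈ Finset.range (d + 1),
    (A k i j).mapDomain (fun g => (g, Multiplicative.ofAdd (k : ℤ)))

/-- All coefficients of the entries of the matrix are in the subring `R` of the complex numbers. -/
def Over {G : Type u} {m l : ℕ} (R : Subring ℂ) (A : Matrix (Fin m) (Fin l) (G →₀ ℂ)) : Prop :=
  ∀ i j g, A i j g ∈ R

theorem kerDim_eq {G : Type u} [Group G] {m l : ℕ} (A : Matrix (Fin m) (Fin l) (G →₀ ℂ)) :
    kerDim A = W649.ZL.kerDimM A := by
  have h : (fun a b => Classical.propDecidable (a = b) : DecidableEq (Fin m))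
      = instDecidableEqFin m := Subsingleton.elim _ _
  unfold kerDim W649.ZL.kerDimM
  rfl

theorem isPoly {G : Type u} [Group G] {m l : ℕ} (d : ℕ)
    (A : ℕ → Matrix (Fin m) (Fin l) (G →₀ ℂ)) : X190.PN.IsPoly d A (polynomial d A) := by
  classical
  intro i j g k
  unfold polynomial
  rw [Finsupp.finsetSum_apply]
  have h1 : ∀ l ∈ Finset.range (d + 1), (A l i j).mapDomain
      (fun g => (g, Multiplicative.ofAdd (l : ℤ))) (g, Multiplicative.ofAdd k)
      = if (l : ℤ) = k then A l i j g else 0 := by
    intro l _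
    have hinj : Function.Injective (fun g : G => (g, Multiplicative.ofAdd (l : ℤ))) :=
      fun a b hab => (Prod.mk.inj hab).1
    by_cases hl : (l : ℤ) = k
    · rw [if_pos hl, ← hl]
      exact Finsupp.mapDomain_apply hinj _ _
    · rw [if_neg hl]
      apply Finsupp.mapDomain_of_notMem_range
      rintro ⟨g', hg'⟩
      exact hl (Multiplicative.ofAdd.injective (Prod.mk.inj hg').2)
  rw [Finset.sum_congr rfl h1]
  split_ifs with hk
  · rw [Finset.sum_eq_single k.toNat]
    · rw [if_pos (Int.toNat_of_nonneg hk.1)]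
    · intro l _ hl
      rw [if_neg]
      intro h
      apply hl
      omega
    · intro hn
      exact absurd (Finset.mem_range.2 (by omega)) hn
  · apply Finset.sum_eq_zero
    intro l hl
    have hl' := Finset.mem_range.1 hl
    rw [if_neg]
    omega

/-- Let `kerDim` be the von Neumann dimension of the kernel on `l2(G)^m`.

1. Let `A 0, ..., A d` be matrices of size `m × l` over the complex group ring of any group `G`, and
let `κ` be the kernel dimension of the polynomial `A 0 + t A 1 + ... + t ^ d A d` over the group ring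
of `G × ℤ`. Then for every complex number `z` the kernel dimension of the value at `z` is at least
`κ`, for every finite set `Z` of complex numbers the sum of the differences over `Z` is at most
`d * (m - κ)`, and the value at `z` has kernel dimension `κ` for all but countably many `z`.

2. For every group `G` and every torsion-free abelian group `Q` the kernel dimensions of the
matrices of size `m × l` over the complex group ring of `G × Q` are exactly the kernel dimensions of
the matrices of size `m × l` over the complex group ring of `G`.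

3. For every subring `R` of the complex numbers, such as the integers or the rational numbers, the
kernel dimensions of matrices over the group ring of `G` with coefficients in `R` are among those
over `G × Q`, and every kernel dimension over `G × Q` is the limit from above of kernel dimensions
over `G`. In particular, if all kernel dimensions of matrices over `R G` are integral multiples of
`1 / N`, then so are all those over `R (G × Q)`. -/
theorem result :
    (∀ (G : Type u) [Group G] (m l d : ℕ) (A : ℕ → Matrix (Fin m) (Fin l) (G →₀ ℂ)),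
      (∀ z : ℂ, kerDim (polynomial d A) ≤ kerDim (value d A z)) ∧
      (∀ Z : Finset ℂ, ∑ z ∈ Z, (kerDim (value d A z) - kerDim (polynomial d A))
        ≤ d * (m - kerDim (polynomial d A))) ∧
      {z : ℂ | kerDim (value d A z) ≠ kerDim (polynomial d A)}.Countable) ∧
    (∀ (G : Type u) (Q : Type v) [Group G] [CommGroup Q],
      (∀ (q : Q) (n : ℕ), 0 < n → q ^ n = 1 → q = 1) → ∀ (m l : ℕ),
      {r : ℝ | ∃ A : Matrix (Fin m) (Fin l) (G × Q →₀ ℂ), r = kerDim A}
        = {r : ℝ | ∃ A : Matrix (Fin m) (Fin l) (G →₀ ℂ), r = kerDim A}) ∧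
    (∀ (G : Type u) (Q : Type v) [Group G] [CommGroup Q],
      (∀ (q : Q) (n : ℕ), 0 < n → q ^ n = 1 → q = 1) → ∀ R : Subring ℂ,
      (∀ (m l : ℕ) (C : Matrix (Fin m) (Fin l) (G →₀ ℂ)), Over R C →
        ∃ A : Matrix (Fin m) (Fin l) (G × Q →₀ ℂ), Over R A ∧ kerDim A = kerDim C) ∧
      (∀ (m l : ℕ) (A : Matrix (Fin m) (Fin l) (G × Q →₀ ℂ)), Over R A → ∀ ε : ℝ, 0 < ε →
        ∃ C : Matrix (Fin m) (Fin l) (G →₀ ℂ), Over R C ∧ kerDim A ≤ kerDim C ∧
          kerDim C < kerDim A + ε) ∧
      ∀ N : ℕ, 0 < N →
        (∀ (m l : ℕ) (C : Matrix (Fin m) (Fin l) (G →₀ ℂ)), Over R C →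
          ∃ n : ℤ, N * kerDim C = n) →
        ∀ (m l : ℕ) (A : Matrix (Fin m) (Fin l) (G × Q →₀ ℂ)), Over R A →
          ∃ n : ℤ, N * kerDim A = n) := by
  classical
  have hclose : ∀ (G : Type u) (Q : Type v) [Group G] [CommGroup Q],
      (∀ (q : Q) (n : ℕ), 0 < n → q ^ n = 1 → q = 1) → ∀ R : Subring ℂ,
      (∀ (m l : ℕ) (A : Matrix (Fin m) (Fin l) (G × Q →₀ ℂ)), Over R A → ∀ ε : ℝ, 0 < ε →
        ∃ C : Matrix (Fin m) (Fin l) (G →₀ ℂ), Over R C ∧ kerDim A ≤ kerDim C ∧
          kerDim C < kerDim A + ε) := by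
    intro G Q _ _ hQ R m l A hA ε hε
    obtain ⟨C, hC, h1, h2⟩ := X190.PN.exists_close_abelian G Q hQ R A hA ε hε
    exact ⟨C, hC, by rw [kerDim_eq, kerDim_eq]; exact h1, by rw [kerDim_eq, kerDim_eq]; exact h2⟩
  have hinl : ∀ (G : Type u) (Q : Type v) [Group G] [CommGroup Q],
      Function.Injective (MonoidHom.inl G Q) := by
    intro G Q _ _ x y hxy
    exact (Prod.mk.inj hxy).1
  refine ⟨?_, ?_, ?_⟩
  · intro G _ m l d A
    have hP := isPoly d A
    have hv : ∀ z, kerDim (value d A z) = W649.ZL.kerDimM (X190.PN.ev d A z) :=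
      fun z => kerDim_eq _
    have hp : kerDim (polynomial d A) = W649.ZL.kerDimM (polynomial d A) := kerDim_eq _
    refine ⟨?_, ?_, ?_⟩
    · intro z
      rw [hv, hp]
      exact X190.PN.ge_gen d A _ hP z
    · intro Z
      have h1 := X190.PN.sum_le d A _ hP Z
      rw [Fintype.card_fin] at h1
      rw [Finset.sum_sub_distrib, Finset.sum_const, nsmul_eq_mul, hp]
      simp only [hv]
      linarith
    · refine (X190.PN.countable_exc d A _ hP).mono ?_
      intro z hz
      change W649.ZL.kerDimM _ ≠ W649.ZL.kerDimM _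
      rw [← hv, ← hp]
      exact hz
  · intro G Q _ _ hQ m l
    ext r
    constructor
    · rintro ⟨A, rfl⟩
      obtain ⟨C, hC⟩ := X190.PN.exists_same_abelian G Q hQ A
      exact ⟨C, by rw [kerDim_eq, kerDim_eq]; exact hC.symm⟩
    · rintro ⟨A, rfl⟩
      obtain ⟨C, hC, _⟩ := X190.PN.exists_map (MonoidHom.inl G Q) (hinl G Q) A
      exact ⟨C, by rw [kerDim_eq, kerDim_eq]; exact hC.symm⟩
  · intro G Q _ _ hQ R
    refine ⟨?_, hclose G Q hQ R, ?_⟩
    · intro m l C hC
      obtain ⟨A, hA, hR⟩ := X190.PN.exists_map (MonoidHom.inl G Q) (hinl G Q) C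
      exact ⟨A, hR R hC, by rw [kerDim_eq, kerDim_eq]; exact hA⟩
    · intro N hN hall m l A hA
      by_contra hcon
      push Not at hcon
      have hN' : (0 : ℝ) < N := by exact_mod_cast hN
      have h1 : (N : ℝ) * kerDim A < ⌈(N : ℝ) * kerDim A⌉ :=
        lt_of_le_of_ne (Int.le_ceil _) (hcon _)
      obtain ⟨C, hC, h2, h3⟩ := hclose G Q hQ R m l A hA
        ((⌈(N : ℝ) * kerDim A⌉ - (N : ℝ) * kerDim A) / N) (div_pos (sub_pos.2 h1) hN')
      obtain ⟨n, hn⟩ := hall m l C hC
      have h4 : (N : ℝ) * kerDim A ≤ n := by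
        rw [← hn]
        exact mul_le_mul_of_nonneg_left h2 hN'.le
      have h5 : (n : ℝ) < ⌈(N : ℝ) * kerDim A⌉ := by
        rw [← hn]
        have h6 := mul_lt_mul_of_pos_left h3 hN'
        rw [mul_add, mul_div_cancel₀ _ hN'.ne'] at h6
        linarith
      have h6 : n < ⌈(N : ℝ) * kerDim A⌉ := by exact_mod_cast h5
      exact absurd (Int.ceil_le.2 h4) (not_le.2 h6)

end Pool.Agent.Results.MP_95030e_al.Specialisations
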