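import Pool.Agent.X190.TW.Dom

set_option autoImplicit false

universe u

noncomputable section

namespace Pool.Agent.Results.MP_95030e_al.TwistsAndFaces

/-- The kernel of right multiplication by the matrix `A` over the complex group ring on row vectors
of length `m` over `l2(G)`: all square-summable `x` with `x A = 0`. -/
def kernel {G : Type u} [Group G] {m l : ℕ} (A : Matrix (Fin m) (Fin l) (G →₀ ℂ)) :
    Set (lp (fun _ : Fin m × G => ℂ) 2) :=
  {x | ∀ (j : Fin l) (g : G),
    ∑ k : Fin m, ∑ h ∈ (A k j).support, x (k, g * h⁻¹) * A k j h = 0}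

open Classical in
/-- The von Neumann dimension of that kernel: the sum over `i` of one minus the square of the
distance from the basis vector at `(i, 1)` to the kernel, that is, the sum of the squared lengths
of the projections of these vectors to the kernel. -/
def kerDim {G : Type u} [Group G] {m l : ℕ} (A : Matrix (Fin m) (Fin l) (G →₀ ℂ)) : ℝ :=
  ∑ i : Fin m, (1 - Metric.infDist
    (lp.single (E := fun _ : Fin m × G => ℂ) 2 (i, (1 : G)) (1 : ℂ)) (kernel A) ^ 2)

theorem kerDim_eq {G : Type u} [Group G] {m l : ℕ} (A : Matrix (Fin m) (Fin l) (G →₀ ℂ)) :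
    kerDim A = W649.ZL.kerDimM A := by
  unfold kerDim W649.ZL.kerDimM
  congr!

open Classical in
/-- The face of the matrix `A` for the weights `w(g) + r i + c j`: the terms of weight zero. -/
def face {G : Type u} [Group G] {m l : ℕ} (w : G →* Multiplicative ℝ) (r : Fin m → ℝ)
    (c : Fin l → ℝ) (A : Matrix (Fin m) (Fin l) (G →₀ ℂ)) : Matrix (Fin m) (Fin l) (G →₀ ℂ) :=
  fun i j => (A i j).filter (fun g => (w g).toAdd + r i + c j = 0)

/-- All weights `w(g) + r i + c j` of the terms of `A` are nonnegative. -/
def Nonneg {G : Type u} [Group G] {m l : ℕ} (w : G →* Multiplicative ℝ) (r : Fin m → ℝ)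
    (c : Fin l → ℝ) (A : Matrix (Fin m) (Fin l) (G →₀ ℂ)) : Prop :=
  ∀ i j, ∀ g ∈ (A i j).support, 0 ≤ (w g).toAdd + r i + c j

/-- Let `G` be any group and `A` an `m × l` matrix over the complex group ring of `G`.

1. Twists: multiplying the coefficient of `g` in the entry at `(i, j)` by `χ(g) r(i) c(j)`, where
   `χ` is any homomorphism from `G` to the nonzero complex numbers, unitary or not, and the `r(i)`
   and `c(j)` are nonzero numbers, does not change the von Neumann dimension of the kernel.
2. Faces: let `w` be a homomorphism from `G` to the real numbers and `r`, `c` real vectors such that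
   all weights `w(g) + r(i) + c(j)` of the terms of `A` are nonnegative. The kernel dimension of
   `A` is at most that of the matrix of its terms of weight zero.
3. Suppose that the face in 2 has a triangular minor of size `n` with regular diagonal entries:
   there are distinct rows `f 0, ..., f (n-1)` and columns `g 0, ..., g (n-1)` such that the entry
   of the face at `(f b, g a)` is zero for `a < b` and that the kernel of the `1 × 1` matrix with
   the entry at `(f a, g a)` has dimension zero. Then the kernel dimension of `A` is at most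
   `m - n`; for `n = m` it is zero.
4. Suppose that for some `χ`, `r` as in 1 every row `i` has a term, in some column `p i`, whose
   absolute value after the twist is greater than the sum of the absolute values of all other terms
   of the entries of the column `p i`. Then the kernel dimension of `A` is zero. -/
theorem result {G : Type u} [Group G] {m l : ℕ} (A : Matrix (Fin m) (Fin l) (G →₀ ℂ)) :
    (∀ (χ : G →* ℂˣ) (r : Fin m → ℂˣ) (c : Fin l → ℂˣ) (B : Matrix (Fin m) (Fin l) (G →₀ ℂ)),
      (∀ i j g, B i j g = (χ g : ℂ) * (r i : ℂ) * (c j : ℂ) * A i j g) → kerDim B = kerDim A) ∧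
    (∀ (w : G →* Multiplicative ℝ) (r : Fin m → ℝ) (c : Fin l → ℝ), Nonneg w r c A →
      kerDim A ≤ kerDim (face w r c A)) ∧
    (∀ (w : G →* Multiplicative ℝ) (r : Fin m → ℝ) (c : Fin l → ℝ), Nonneg w r c A →
      ∀ (n : ℕ) (f : Fin n → Fin m) (g : Fin n → Fin l), Function.Injective f →
        (∀ a b, a < b → face w r c A (f b) (g a) = 0) →
        (∀ a, kerDim (fun _ _ : Fin 1 => face w r c A (f a) (g a)) = 0) →
        kerDim A ≤ m - n ∧ (n = m → kerDim A = 0)) ∧
    (∀ (χ : G →* ℂˣ) (r : Fin m → ℂˣ) (p : Fin m → Fin l) (t : Fin m → G),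
      (∀ i, ∑ k : Fin m, ∑ g ∈ (A k (p i)).support, ‖(χ g : ℂ) * (r k : ℂ) * A k (p i) g‖
        < 2 * ‖(χ (t i) : ℂ) * (r i : ℂ) * A i (p i) (t i)‖) → kerDim A = 0) := by
  classical
  have h1 : ∀ (χ : G →* ℂˣ) (r : Fin m → ℂˣ) (c : Fin l → ℂˣ)
      (B : Matrix (Fin m) (Fin l) (G →₀ ℂ)),
      (∀ i j g, B i j g = (χ g : ℂ) * (r i : ℂ) * (c j : ℂ) * A i j g) → kerDim B = kerDim A := by
    intro χ r c B hB
    rw [kerDim_eq, kerDim_eq]
    exact X190.TW.kerDimM_twist A B χ r c hB
  have h2 : ∀ (w : G →* Multiplicative ℝ) (r : Fin m → ℝ) (c : Fin l → ℝ), Nonneg w r c A →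
      kerDim A ≤ kerDim (face w r c A) := by
    intro w r c hA
    rw [kerDim_eq, kerDim_eq]
    refine X190.TW.kerDimM_face A _ (fun g => (w g).toAdd) (fun x y => by rw [map_mul]; rfl) r c
      ?_ ?_ ?_
    · intro i j g hg
      exact hA i j g (Finsupp.mem_support_iff.2 hg)
    · intro i j g hg
      exact Finsupp.filter_apply_pos _ _ hg
    · intro i j g hg
      exact Finsupp.filter_apply_neg _ _ hg
  refine ⟨h1, h2, ?_, ?_⟩
  · intro w r c hA n f g hf htri hdiag
    have h3 : kerDim A ≤ m - n := by
      refine (h2 w r c hA).trans ?_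
      rw [kerDim_eq]
      have h4 := X190.TW.kerDimM_tri (face w r c A) n f g hf htri (fun a => by
        have := hdiag a
        rw [kerDim_eq] at this
        exact this.le)
      rwa [Fintype.card_fin] at h4
    refine ⟨h3, ?_⟩
    rintro rfl
    rw [sub_self] at h3
    refine le_antisymm h3 ?_
    rw [kerDim_eq]
    obtain ⟨T, _, hTk, _⟩ := X190.TW.exists_op A
    rw [hTk]
    exact W649.ZL.vd_nonneg _
  · intro χ r p t h
    let B : Matrix (Fin m) (Fin l) (G →₀ ℂ) := fun i j =>
      Finsupp.onFinset (A i j).support (fun g => (χ g : ℂ) * (r i : ℂ) * A i j g) (by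
        intro g hg
        rw [Finsupp.mem_support_iff]
        intro h0
        exact hg (by rw [h0, mul_zero]))
    have hBa : ∀ i j g, B i j g = (χ g : ℂ) * (r i : ℂ) * A i j g := fun i j g => rfl
    have hBs : ∀ i j, (B i j).support = (A i j).support := by
      intro i j
      ext g
      rw [Finsupp.mem_support_iff, Finsupp.mem_support_iff, hBa]
      constructor
      · intro h h0
        exact h (by rw [h0, mul_zero])
      · intro h
        exact mul_ne_zero (mul_ne_zero (χ g).ne_zero (r i).ne_zero) h
    rw [← h1 χ r (fun _ => 1) B (fun i j g => by rw [hBa, Units.val_one, mul_one]), kerDim_eq]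
    refine X190.TW.kerDimM_dominant B p t ?_
    intro i
    rw [hBa]
    refine lt_of_le_of_lt (le_of_eq ?_) (h i)
    refine Finset.sum_congr rfl fun k _ => ?_
    rw [hBs]
    exact Finset.sum_congr rfl fun g _ => by rw [hBa]

end Pool.Agent.Results.MP_95030e_al.TwistsAndFaces
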