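import Pool.Agent.X190.PN.Univ

set_option autoImplicit false

universe u

noncomputable section

namespace Pool.Agent.Results.MP_95030e_al.UniversalGroup

/-- The kernel of right multiplication by the matrix `A` over the complex group ring on row vectors
of length `m` over `l2(G)`: all square-summable `x` with `x A = 0`. -/
def kernel {G : Type u} [Group G] {m l : ℕ} (A : Matrix (Fin m) (Fin l) (G →₀ ℂ)) :
    Set (lp (fun _ : Fin m × G => ℂ) 2) :=
  {x | ∀ (j : Fin l) (g : G),
    ∑ k : Fin m, ∑ h ∈ (A k j).support, x (k, g * h⁻¹) * A k j h = 0}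

open Classical in
/-- The von Neumann dimension of that kernel: the sum over `i` of one minus the square of the
distance from the basis vector at `(i, 1)` to the kernel, that is, the sum of the squared lengths
of the projections of these vectors to the kernel. -/
def kerDim {G : Type u} [Group G] {m l : ℕ} (A : Matrix (Fin m) (Fin l) (G →₀ ℂ)) : ℝ :=
  ∑ i : Fin m, (1 - Metric.infDist
    (lp.single (E := fun _ : Fin m × G => ℂ) 2 (i, (1 : G)) (1 : ℂ)) (kernel A) ^ 2)

/-- The set of the kernel dimensions of all finite matrices over the group ring of `G` whose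
coefficients are in the subring `R` of the complex numbers. -/
def dims (R : Subring ℂ) (G : Type u) [Group G] : Set ℝ :=
  {r | ∃ (m l : ℕ) (A : Matrix (Fin m) (Fin l) (G →₀ ℂ)), (∀ i j g, A i j g ∈ R) ∧ r = kerDim A}

/-- The only element of finite order is the identity. -/
def TorsionFree (G : Type u) [Group G] : Prop :=
  ∀ (g : G) (n : ℕ), 0 < n → g ^ n = 1 → g = 1

theorem dims_eq (R : Subring ℂ) (G : Type u) [Group G] : dims R G = X190.PN.DD R G := by
  have h : ∀ (m l : ℕ) (A : Matrix (Fin m) (Fin l) (G →₀ ℂ)), kerDim A = W649.ZL.kerDimM A := by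
    intro m l A
    have h : (fun a b => Classical.propDecidable (a = b) : DecidableEq (Fin m))
        = instDecidableEqFin m := Subsingleton.elim _ _
    unfold kerDim W649.ZL.kerDimM
    rfl
  unfold dims X190.PN.DD
  ext r
  constructor
  · rintro ⟨m, l, A, hA, hr⟩
    exact ⟨m, l, A, hA, by rw [hr, h]⟩
  · rintro ⟨m, l, A, hA, hr⟩
    exact ⟨m, l, A, hA, by rw [hr, h]⟩

/-- For a subring `R` of the complex numbers (such as the rational numbers) let `dims R G` be the
set of the von Neumann dimensions of the kernels of all finite matrices over the group ring `R G`.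

1. There is a torsion-free group `U` such that for every `R` the set `dims R U` contains `dims R G`
for all torsion-free groups `G`, and either `dims R U` is the set of the nonnegative integers, or
it is dense in the half-line `[0, ∞)`.

2. For every `R` the Atiyah conjecture over `R` (for all torsion-free groups `G` all numbers in
`dims R G` are integers) is equivalent to the statement that there is no countable torsion-free
group `Q` with `dims R Q` dense in `[0, ∞)`. -/
theorem result :
    (∃ (U : Type) (_ : Group U), TorsionFree U ∧ ∀ R : Subring ℂ,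
      (∀ (G : Type u) [Group G], TorsionFree G → dims R G ⊆ dims R U) ∧
      (dims R U = Set.range (fun n : ℕ => (n : ℝ)) ∨ closure (dims R U) = Set.Ici 0)) ∧
    (∀ R : Subring ℂ,
      (∀ (G : Type u) [Group G], TorsionFree G → ∀ r ∈ dims R G, ∃ n : ℤ, r = n) ↔
      ¬ ∃ (Q : Type) (_ : Group Q), Countable Q ∧ TorsionFree Q ∧
        closure (dims R Q) = Set.Ici 0) := by
  have hdense : ∀ D : Set ℝ, closure D = Set.Ici 0 → ∃ r ∈ D, ∀ n : ℤ, r ≠ n := by
    intro D hD
    obtain ⟨r, hr, h0, h1⟩ := X190.PN.exists_small hD 1 one_pos
    refine ⟨r, hr, ?_⟩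
    rintro n rfl
    have h2 : (0 : ℤ) < n := by exact_mod_cast h0
    have h3 : n < (1 : ℤ) := by exact_mod_cast h1
    omega
  refine ⟨⟨X190.PN.UU, inferInstance, X190.PN.UU_tf, ?_⟩, ?_⟩
  · intro R
    constructor
    · intro G _ hG
      rw [dims_eq, dims_eq]
      exact X190.PN.DD_sub_UU R hG
    · rw [dims_eq]
      exact X190.PN.zero_one R
  · intro R
    constructor
    · rintro h ⟨Q, _, hQ, hTF, hcl⟩
      obtain ⟨r, hr, hn⟩ := hdense _ hcl
      have hTF' : TorsionFree (ULift.{u} Q) := by
        intro g n hn hg
        apply ULift.down_injective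
        exact hTF g.down n hn (congrArg ULift.down hg)
      rw [dims_eq] at hr
      let e : ULift.{u} Q ≃* Q := MulEquiv.ulift
      have hr' := X190.PN.DD_mono R e.symm.toMonoidHom e.symm.injective hr
      rw [← dims_eq] at hr'
      obtain ⟨n, hn'⟩ := h (ULift.{u} Q) hTF' r hr'
      exact hn n hn'
    · intro h G _ hG r hr
      rw [dims_eq] at hr
      have hrU := X190.PN.DD_sub_UU R hG hr
      rcases X190.PN.zero_one R with h1 | h1
      · rw [h1] at hrU
        obtain ⟨n, rfl⟩ := hrU
        exact ⟨n, by push_cast; rfl⟩
      · exfalso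
        apply h
        obtain ⟨Q, _, hQ, hTF, hcl⟩ := X190.PN.exists_countable R X190.PN.UU_tf h1
        exact ⟨Q, inferInstance, hQ, hTF, by rw [dims_eq]; exact hcl⟩

end Pool.Agent.Results.MP_95030e_al.UniversalGroup
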